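import Mathlib

/-!
Groups defined by languages of relators; indexed grammars (Aho).
-/

namespace Pool.Agent.R938.NS

/-- A word over `Δ` read as an element of the free group on `Δ`. -/
def wordVal {Δ : Type} (w : List Δ) : FreeGroup Δ := (w.map FreeGroup.of).prod

/-- The set of relators given by a language `L`. -/
def wordRels {Δ : Type} (L : Language Δ) : Set (FreeGroup Δ) := {x | ∃ w ∈ L, x = wordVal w}

/-- The group `⟨Δ ; w = 1 (w ∈ L)⟩`. -/
abbrev LangGroup {Δ : Type} (L : Language Δ) : Type := PresentedGroup (wordRels L)

/-- An indexed grammar (Aho 1968): a finite list of productions `A → α` in which every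
nonterminal of `α` carries a string of flags to be pushed, and a finite list of
flag consuming productions `A f → α`. -/
structure IndexedGrammar (T : Type) where
  NT : Type
  Flag : Type
  initial : NT
  pushRules : List (NT × List (T ⊕ (NT × List Flag)))
  popRules : List (NT × Flag × List (T ⊕ NT))

namespace IndexedGrammar

variable {T : Type}

/-- Sentential forms: strings of terminals and of nonterminals with a stack of flags
(top of the stack first). -/
abbrev Form (g : IndexedGrammar T) : Type := List (T ⊕ (g.NT × List g.Flag))

/-- The right-hand side of a pushing production under the stack `σ`. -/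
def pushOut (g : IndexedGrammar T) (σ : List g.Flag)
    (α : List (T ⊕ (g.NT × List g.Flag))) : g.Form :=
  α.map (Sum.map id (fun p => (p.1, p.2 ++ σ)))

/-- The right-hand side of a flag consuming production over the remaining stack `σ`. -/
def popOut (g : IndexedGrammar T) (σ : List g.Flag) (α : List (T ⊕ g.NT)) : g.Form :=
  α.map (Sum.map id (fun B => (B, σ)))

/-- One derivation step. -/
inductive Step (g : IndexedGrammar T) : g.Form → g.Form → Prop
  | push (u v : g.Form) (A : g.NT) (σ : List g.Flag) (α : List (T ⊕ (g.NT × List g.Flag)))
      (h : (A, α) ∈ g.pushRules) :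
      Step g (u ++ Sum.inr (A, σ) :: v) (u ++ (g.pushOut σ α ++ v))
  | pop (u v : g.Form) (A : g.NT) (f : g.Flag) (σ : List g.Flag) (α : List (T ⊕ g.NT))
      (h : (A, f, α) ∈ g.popRules) :
      Step g (u ++ Sum.inr (A, f :: σ) :: v) (u ++ (g.popOut σ α ++ v))

/-- The language of an indexed grammar. -/
def language (g : IndexedGrammar T) : Language T :=
  {w : List T | Relation.ReflTransGen g.Step [Sum.inr (g.initial, [])] (w.map Sum.inl)}

end IndexedGrammar

/-- Indexed languages, equivalently the languages recognised by nested stack automata. -/
def IsIndexed {T : Type} (L : Language T) : Prop := ∃ g : IndexedGrammar T, g.language = L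

/-- A nested stack group: a group with a presentation over a finite alphabet whose
relators form an indexed language. -/
def IsNestedStackGroup (G : Type) [Group G] : Prop :=
  ∃ (Δ : Type) (_ : Fintype Δ) (L : Language Δ), IsIndexed L ∧ Nonempty (G ≃* LangGroup L)

/-- A context-free group: a group with a presentation over a finite alphabet whose
relators form a context-free language. -/
def IsContextFreeGroup (G : Type) [Group G] : Prop :=
  ∃ (Δ : Type) (_ : Fintype Δ) (L : Language Δ), L.IsContextFree ∧ Nonempty (G ≃* LangGroup L)

theorem wordVal_append {Δ : Type} (u v : List Δ) : wordVal (u ++ v) = wordVal u * wordVal v := by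
  simp [wordVal]

theorem wordVal_nil {Δ : Type} : wordVal ([] : List Δ) = 1 := by
  simp [wordVal]

theorem wordVal_cons {Δ : Type} (a : Δ) (v : List Δ) :
    wordVal (a :: v) = FreeGroup.of a * wordVal v := by
  simp [wordVal]

end Pool.Agent.R938.NS
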