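import Pool.Agent.R938.NS.Basic

/-!
A group whose relators form a context-free language is finitely presented.
-/

namespace Pool.Agent.R938.NS

open Classical

variable {T : Type} (g : ContextFreeGrammar T)

/-- Productive nonterminals. -/
def Productive (A : g.NT) : Prop :=
  ∃ w : List T, g.Derives [Symbol.nonterminal A] (w.map Symbol.terminal)

/-- A chosen word derived from a productive nonterminal. -/
noncomputable def chosen (A : g.NT) : List T :=
  if h : Productive g A then h.choose else []

theorem chosen_spec {A : g.NT} (h : Productive g A) :
    g.Derives [Symbol.nonterminal A] ((chosen g A).map Symbol.terminal) := by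
  unfold chosen
  rw [dif_pos h]
  exact h.choose_spec

/-- Replace every nonterminal by its chosen word. -/
noncomputable def expand (l : List (Symbol T g.NT)) : List T :=
  l.flatMap (fun s => match s with
    | Symbol.terminal a => [a]
    | Symbol.nonterminal A => chosen g A)

theorem expand_append (l m : List (Symbol T g.NT)) :
    expand g (l ++ m) = expand g l ++ expand g m := by
  simp [expand]

theorem expand_terminal (w : List T) :
    expand g (w.map (Symbol.terminal (N := g.NT))) = w := by
  induction w with
  | nil => rfl
  | cons a w ih =>
    have : expand g (List.map Symbol.terminal (a :: w)) =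
        [a] ++ expand g (List.map Symbol.terminal w) := rfl
    rw [this, ih]; rfl

theorem derives_expand (l : List (Symbol T g.NT))
    (h : ∀ A, Symbol.nonterminal A ∈ l → Productive g A) :
    g.Derives l ((expand g l).map Symbol.terminal) := by
  induction l with
  | nil => exact Relation.ReflTransGen.refl
  | cons s l ih =>
    have ih' := ih (fun A hA => h A (List.mem_cons_of_mem _ hA))
    have e : expand g (s :: l) = expand g [s] ++ expand g l := expand_append g [s] l
    rw [e, List.map_append]
    have h1 : g.Derives (s :: l) (s :: (expand g l).map Symbol.terminal) := by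
      have := ih'.append_left [s]
      simpa using this
    refine h1.trans ?_
    have h2 : g.Derives [s] ((expand g [s]).map Symbol.terminal) := by
      cases s with
      | terminal a => exact Relation.ReflTransGen.refl
      | nonterminal A =>
        have := chosen_spec g (h A (List.mem_cons_self))
        simpa [expand] using this
    have := h2.append_right ((expand g l).map Symbol.terminal)
    simpa using this

theorem productive_of_derives {l : List (Symbol T g.NT)} {w : List T}
    (h : g.Derives l (w.map Symbol.terminal)) :
    ∀ A, Symbol.nonterminal A ∈ l → Productive g A := by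
  induction h using Relation.ReflTransGen.head_induction_on with
  | refl =>
    intro A hA
    simp at hA
  | head hstep _ ih =>
    rename_i l1 l2
    intro A hA
    obtain ⟨r, hr, hrw⟩ := hstep
    obtain ⟨p, q, rfl, rfl⟩ := hrw.exists_parts
    rw [List.mem_append, List.mem_append] at hA
    rcases hA with (hA | hA) | hA
    · exact ih A (by simp [hA])
    · have hAr : A = r.input := by simpa using hA
      subst hAr
      refine ⟨expand g r.output, ?_⟩
      have h1 : g.Produces [Symbol.nonterminal r.input] r.output :=
        ⟨r, hr, ContextFreeRule.Rewrites.input_output⟩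
      refine h1.trans_derives (derives_expand g _ ?_)
      intro B hB
      exact ih B (by simp [hB])
    · exact ih A (by simp [hA])

/-- The value of a sentential form. -/
noncomputable def ev (l : List (Symbol T g.NT)) : FreeGroup T := wordVal (expand g l)

theorem ev_append (l m : List (Symbol T g.NT)) : ev g (l ++ m) = ev g l * ev g m := by
  simp [ev, expand_append, wordVal_append]

/-- Rules which occur in a derivation of a terminal word. -/
def Useful (r : ContextFreeRule T g.NT) : Prop :=
  ∃ (p q : List (Symbol T g.NT)) (w : List T),
    g.Derives [Symbol.nonterminal g.initial] (p ++ [Symbol.nonterminal r.input] ++ q) ∧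
    g.Derives (p ++ r.output ++ q) (w.map Symbol.terminal)

/-- The finite set of relators. -/
def finRels : Set (FreeGroup T) :=
  {x | ∃ r ∈ g.rules, Useful g r ∧ x = ev g [Symbol.nonterminal r.input] * (ev g r.output)⁻¹} ∪
  {x | Productive g g.initial ∧ x = ev g [Symbol.nonterminal g.initial]}

theorem finRels_finite : (finRels g).Finite := by
  apply Set.Finite.union
  · apply Set.Finite.subset (Set.Finite.image
      (fun r : ContextFreeRule T g.NT => ev g [Symbol.nonterminal r.input] * (ev g r.output)⁻¹)
      (g.rules.finite_toSet))
    rintro x ⟨r, hr, _, rfl⟩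
    exact ⟨r, hr, rfl⟩
  · apply Set.Finite.subset (Set.finite_singleton (ev g [Symbol.nonterminal g.initial]))
    rintro x ⟨_, rfl⟩
    exact rfl

theorem finRels_le : Subgroup.normalClosure (finRels g) ≤
    Subgroup.normalClosure (wordRels g.language) := by
  apply Subgroup.normalClosure_le_normal
  rintro x (⟨r, hr, ⟨p, q, w, h1, h2⟩, rfl⟩ | ⟨hp, rfl⟩)
  · have hst : g.Produces (p ++ [Symbol.nonterminal r.input] ++ q) (p ++ r.output ++ q) :=
      ⟨r, hr, ContextFreeRule.rewrites_of_exists_parts r p q⟩
    have h3 : g.Derives (p ++ [Symbol.nonterminal r.input] ++ q) (w.map Symbol.terminal) :=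
      hst.trans_derives h2
    have m1 : ev g (p ++ [Symbol.nonterminal r.input] ++ q) ∈
        Subgroup.normalClosure (wordRels g.language) := by
      apply Subgroup.subset_normalClosure
      refine ⟨_, ?_, rfl⟩
      exact h1.trans (derives_expand g _ (productive_of_derives g h3))
    have m2 : ev g (p ++ r.output ++ q) ∈
        Subgroup.normalClosure (wordRels g.language) := by
      apply Subgroup.subset_normalClosure
      refine ⟨_, ?_, rfl⟩
      exact (h1.trans_produces hst).trans (derives_expand g _ (productive_of_derives g h2))
    have m3 := Subgroup.mul_mem _ m1 (Subgroup.inv_mem _ m2)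
    have m4 := Subgroup.normalClosure_normal.conj_mem _ m3 (ev g p)⁻¹
    simp only [ev_append] at m4
    have e : (ev g p)⁻¹ * (ev g p * ev g [Symbol.nonterminal r.input] * ev g q *
        (ev g p * ev g r.output * ev g q)⁻¹) * (ev g p)⁻¹⁻¹ =
        ev g [Symbol.nonterminal r.input] * (ev g r.output)⁻¹ := by group
    rw [e] at m4
    exact m4
  · apply Subgroup.subset_normalClosure
    refine ⟨_, ?_, rfl⟩
    apply derives_expand
    intro A hA
    have : A = g.initial := by simpa using hA
    subst this
    exact hp

theorem ev_const {l : List (Symbol T g.NT)} {w : List T}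
    (h : g.Derives l (w.map Symbol.terminal)) :
    g.Derives [Symbol.nonterminal g.initial] l →
    ev g l * (wordVal w)⁻¹ ∈ Subgroup.normalClosure (finRels g) := by
  induction h using Relation.ReflTransGen.head_induction_on with
  | refl =>
    intro _
    simp [ev, expand_terminal, Subgroup.one_mem]
  | head hstep hrest ih =>
    rename_i l1 l2
    intro h0
    have h2 := ih (h0.trans_produces hstep)
    obtain ⟨r, hr, hrw⟩ := hstep
    obtain ⟨p, q, rfl, rfl⟩ := hrw.exists_parts
    have m1 : ev g [Symbol.nonterminal r.input] * (ev g r.output)⁻¹ ∈
        Subgroup.normalClosure (finRels g) := by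
      apply Subgroup.subset_normalClosure
      left
      exact ⟨r, hr, ⟨p, q, w, h0, hrest⟩, rfl⟩
    have m2 := Subgroup.normalClosure_normal.conj_mem _ m1 (ev g p)
    have m3 := Subgroup.mul_mem _ m2 h2
    simp only [ev_append] at m3 ⊢
    have e : ev g p * (ev g [Symbol.nonterminal r.input] * (ev g r.output)⁻¹) * (ev g p)⁻¹ *
        (ev g p * ev g r.output * ev g q * (wordVal w)⁻¹) =
        ev g p * ev g [Symbol.nonterminal r.input] * ev g q * (wordVal w)⁻¹ := by group
    rw [e] at m3
    exact m3

theorem le_finRels : Subgroup.normalClosure (wordRels g.language) ≤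
    Subgroup.normalClosure (finRels g) := by
  apply Subgroup.normalClosure_le_normal
  rintro x ⟨w, hw, rfl⟩
  have hw' : g.Derives [Symbol.nonterminal g.initial] (w.map Symbol.terminal) := hw
  have h1 := ev_const g hw' Relation.ReflTransGen.refl
  have h2 : ev g [Symbol.nonterminal g.initial] ∈ Subgroup.normalClosure (finRels g) := by
    apply Subgroup.subset_normalClosure
    right
    exact ⟨⟨w, hw'⟩, rfl⟩
  have h3 := Subgroup.mul_mem _ (Subgroup.inv_mem _ h1) h2
  have e : (ev g [Symbol.nonterminal g.initial] * (wordVal w)⁻¹)⁻¹ *
      ev g [Symbol.nonterminal g.initial] = wordVal w := by group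
  rw [e] at h3
  exact h3

theorem normalClosure_finRels : Subgroup.normalClosure (finRels g) =
    Subgroup.normalClosure (wordRels g.language) :=
  le_antisymm (finRels_le g) (le_finRels g)

/-- A group with a context-free set of relators is finitely presented. -/
theorem IsContextFreeGroup.finitelyPresented {G : Type} [Group G] (h : IsContextFreeGroup G) :
    Group.IsFinitelyPresented G := by
  obtain ⟨Δ, hΔ, L, ⟨g, rfl⟩, ⟨e⟩⟩ := h
  have hfin : Finite (finRels g) := finRels_finite g
  have e2 : PresentedGroup (finRels g) ≃* LangGroup g.language :=
    QuotientGroup.quotientMulEquivOfEq (normalClosure_finRels g)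
  have := Group.IsFinitelyPresented.equiv (e2.trans e.symm)
  exact this

end Pool.Agent.R938.NS
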