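import Pool.Agent.R938.NS.CF

/-!
Every finitely presented group is a context-free group.
-/

namespace Pool.Agent.R938.NS

open Classical

theorem no_produces_terminal {T : Type} (g : ContextFreeGrammar T) (w : List T)
    (v : List (Symbol T g.NT)) : ¬ g.Produces (w.map Symbol.terminal) v := by
  rintro ⟨r, _, hr⟩
  have := hr.nonterminal_input_mem
  simp at this

theorem finite_isContextFree {T : Type} (L : Language T) (h : Set.Finite (L : Set (List T))) :
    L.IsContextFree := by
  let g : ContextFreeGrammar T :=
    { NT := Unit
      initial := ()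
      rules := h.toFinset.image (fun w => ⟨(), w.map Symbol.terminal⟩) }
  refine ⟨g, ?_⟩
  apply Set.Subset.antisymm
  · intro w hw
    have hw' : g.Derives [Symbol.nonterminal g.initial] (w.map Symbol.terminal) := hw
    rcases hw'.eq_or_head with h1 | ⟨v, hv, hd⟩
    · exfalso
      cases w with
      | nil => simp at h1
      | cons a w => simp at h1
    · obtain ⟨r, hr, hrw⟩ := hv
      obtain ⟨p, q, h1, rfl⟩ := hrw.exists_parts
      have hr' : r ∈ h.toFinset.image
        (fun w => (⟨(), w.map Symbol.terminal⟩ : ContextFreeRule T Unit)) := hr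
      rw [Finset.mem_image] at hr'
      obtain ⟨l, hl, hlr⟩ := hr'
      have hlen := congrArg List.length h1
      simp only [List.length_append, List.length_singleton] at hlen
      have hp : p = [] := List.length_eq_zero_iff.1 (by omega)
      have hq : q = [] := List.length_eq_zero_iff.1 (by omega)
      subst hp hq
      rw [← hlr, List.nil_append, List.append_nil] at hd
      change g.Derives (l.map Symbol.terminal) (w.map Symbol.terminal) at hd
      have hlw : l = w := by
        rcases hd.eq_or_head with h2 | ⟨v, hv, _⟩
        · have hinj : Function.Injective (Symbol.terminal : T → Symbol T g.NT) := by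
            intro x y hxy
            exact Symbol.terminal.inj hxy
          exact List.map_injective_iff.2 hinj h2
        · exact absurd hv (no_produces_terminal g l v)
      rw [← hlw]
      exact (Set.Finite.mem_toFinset h).1 hl
  · intro w hw
    change g.Derives [Symbol.nonterminal g.initial] (w.map Symbol.terminal)
    refine Relation.ReflTransGen.single ⟨⟨(), w.map Symbol.terminal⟩, ?_, ?_⟩
    · change (⟨(), w.map Symbol.terminal⟩ : ContextFreeRule T Unit) ∈ h.toFinset.image
        (fun w => (⟨(), w.map Symbol.terminal⟩ : ContextFreeRule T Unit))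
      rw [Finset.mem_image]
      exact ⟨w, (Set.Finite.mem_toFinset h).2 hw, rfl⟩
    · exact ContextFreeRule.Rewrites.input_output (r := ⟨(), w.map Symbol.terminal⟩)

variable {n : ℕ}

/-- Letters as elements of the free group. -/
def letterVal (p : Fin n × Bool) : FreeGroup (Fin n) :=
  if p.2 then FreeGroup.of p.1 else (FreeGroup.of p.1)⁻¹

theorem letterVal_eq (p : Fin n × Bool) : letterVal p = FreeGroup.mk [p] := by
  obtain ⟨i, b⟩ := p
  cases b <;> simp [letterVal, FreeGroup.of, FreeGroup.inv_mk, FreeGroup.invRev]

theorem lift_letterVal (w : List (Fin n × Bool)) :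
    FreeGroup.lift letterVal (wordVal w) = FreeGroup.mk w := by
  induction w with
  | nil => simp [wordVal_nil, FreeGroup.one_eq_mk]
  | cons a w ih =>
    rw [wordVal_cons, map_mul, ih, FreeGroup.lift_apply_of, letterVal_eq, FreeGroup.mul_mk]
    rfl

/-- The finite language of relators attached to a finite presentation. -/
def fpLang (s : Set (FreeGroup (Fin n))) : Language (Fin n × Bool) :=
  {w | (∃ i, w = [(i, true), (i, false)]) ∨ ∃ r ∈ s, w = r.toWord}

theorem fpLang_finite (s : Set (FreeGroup (Fin n))) (hs : s.Finite) :
    Set.Finite (fpLang s : Set (List (Fin n × Bool))) := by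
  have h1 : Set.Finite {w : List (Fin n × Bool) | ∃ i, w = [(i, true), (i, false)]} := by
    apply Set.Finite.subset (Set.finite_range (fun i : Fin n => [(i, true), (i, false)]))
    rintro w ⟨i, rfl⟩
    exact ⟨i, rfl⟩
  have h2 : Set.Finite {w : List (Fin n × Bool) | ∃ r ∈ s, w = r.toWord} := by
    apply Set.Finite.subset (hs.image FreeGroup.toWord)
    rintro w ⟨r, hr, rfl⟩
    exact ⟨r, hr, rfl⟩
  exact h1.union h2

theorem of_false (s : Set (FreeGroup (Fin n))) (i : Fin n) :
    PresentedGroup.mk (wordRels (fpLang s)) (FreeGroup.of (i, false)) =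
      (PresentedGroup.mk (wordRels (fpLang s)) (FreeGroup.of (i, true)))⁻¹ := by
  have h : PresentedGroup.mk (wordRels (fpLang s)) (wordVal [(i, true), (i, false)]) = 1 :=
    PresentedGroup.one_of_mem ⟨_, Or.inl ⟨i, rfl⟩, rfl⟩
  rw [wordVal_cons, wordVal_cons, wordVal_nil, mul_one, map_mul] at h
  exact eq_inv_of_mul_eq_one_right h

theorem lift_mk (s : Set (FreeGroup (Fin n))) (w : List (Fin n × Bool)) :
    FreeGroup.lift (fun i : Fin n =>
      PresentedGroup.mk (wordRels (fpLang s)) (FreeGroup.of (i, true))) (FreeGroup.mk w) =
      PresentedGroup.mk (wordRels (fpLang s)) (wordVal w) := by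
  induction w with
  | nil =>
    rw [wordVal_nil, map_one]
    have : (FreeGroup.mk [] : FreeGroup (Fin n)) = 1 := FreeGroup.one_eq_mk.symm
    rw [this, map_one]
  | cons a w ih =>
    have e : (FreeGroup.mk (a :: w) : FreeGroup (Fin n)) = FreeGroup.mk [a] * FreeGroup.mk w := by
      rw [FreeGroup.mul_mk]; rfl
    rw [e, map_mul, ih, wordVal_cons, map_mul]
    congr 1
    rw [← letterVal_eq]
    obtain ⟨i, b⟩ := a
    cases b
    · simp only [letterVal, Bool.false_eq_true, if_false, map_inv, FreeGroup.lift_apply_of]
      rw [of_false]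
    · simp only [letterVal, if_true, FreeGroup.lift_apply_of]

theorem fpLang_equiv (s : Set (FreeGroup (Fin n))) :
    Nonempty (PresentedGroup s ≃* LangGroup (fpLang s)) := by
  let F : LangGroup (fpLang s) →* PresentedGroup s :=
    PresentedGroup.toGroup (f := fun p : Fin n × Bool => PresentedGroup.mk s (letterVal p)) (by
      rintro x ⟨w, hw, rfl⟩
      have e : FreeGroup.lift (fun p : Fin n × Bool => PresentedGroup.mk s (letterVal p)) =
          (PresentedGroup.mk s).comp (FreeGroup.lift letterVal) := by
        apply FreeGroup.ext_hom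
        intro i
        simp
      rw [e, MonoidHom.comp_apply, lift_letterVal]
      rcases hw with ⟨i, rfl⟩ | ⟨r, hr, rfl⟩
      · have : (FreeGroup.mk [(i, true), (i, false)] : FreeGroup (Fin n)) = 1 := by
          have h1 : (FreeGroup.mk [(i, true), (i, false)] : FreeGroup (Fin n)) =
              FreeGroup.mk [(i, true)] * FreeGroup.mk [(i, false)] := by
            rw [FreeGroup.mul_mk]; rfl
          rw [h1, ← letterVal_eq, ← letterVal_eq]
          simp [letterVal]
        rw [this, map_one]
      · rw [FreeGroup.mk_toWord]
        exact PresentedGroup.one_of_mem hr)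
  let G : PresentedGroup s →* LangGroup (fpLang s) :=
    PresentedGroup.toGroup (f := fun i : Fin n =>
      PresentedGroup.mk (wordRels (fpLang s)) (FreeGroup.of (i, true))) (by
      intro r hr
      have h1 := lift_mk s r.toWord
      rw [FreeGroup.mk_toWord] at h1
      rw [h1]
      exact PresentedGroup.one_of_mem ⟨_, Or.inr ⟨r, hr, rfl⟩, rfl⟩)
  refine ⟨MonoidHom.toMulEquiv G F ?_ ?_⟩
  · apply PresentedGroup.ext
    intro i
    rw [MonoidHom.comp_apply]
    have h1 : G (PresentedGroup.of i) =
        PresentedGroup.mk (wordRels (fpLang s)) (FreeGroup.of (i, true)) :=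
      PresentedGroup.toGroup.of _
    rw [h1]
    have h2 : F (PresentedGroup.of (i, true)) = PresentedGroup.mk s (letterVal (i, true)) :=
      PresentedGroup.toGroup.of _
    refine h2.trans ?_
    simp [letterVal]
    rfl
  · apply PresentedGroup.ext
    rintro ⟨i, b⟩
    rw [MonoidHom.comp_apply]
    have h2 : F (PresentedGroup.of (i, b)) = PresentedGroup.mk s (letterVal (i, b)) :=
      PresentedGroup.toGroup.of _
    rw [h2]
    have h1 : G (PresentedGroup.mk s (FreeGroup.of i)) =
        PresentedGroup.mk (wordRels (fpLang s)) (FreeGroup.of (i, true)) :=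
      PresentedGroup.toGroup.of _
    cases b
    · simp only [letterVal, Bool.false_eq_true, if_false, map_inv, h1]
      rw [← of_false]
      rfl
    · simp only [letterVal, if_true, h1]
      rfl

theorem IsContextFreeGroup.of_finitelyPresented {G : Type} [Group G]
    (h : Group.IsFinitelyPresented G) : IsContextFreeGroup G := by
  obtain ⟨n, s, hs, ⟨φ⟩⟩ := Group.IsFinitelyPresented.exists_mulEquiv_presentedGroup (G := G)
  obtain ⟨ψ⟩ := fpLang_equiv s
  exact ⟨Fin n × Bool, inferInstance, fpLang s, finite_isContextFree _ (fpLang_finite s hs),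
    ⟨φ.trans ψ⟩⟩

end Pool.Agent.R938.NS
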