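import Pool.Agent.R938.NS.Basic

/-!
An indexed set of relators for the lamplighter group, and an infinite family of
permutation quotients showing that it is not finitely presented.
-/

namespace Pool.Agent.R938.NS

/-- The alphabet: `a`, `t` and the formal inverse `u` of `t`. -/
inductive Letter | a | t | u
  deriving DecidableEq

instance : Fintype Letter := ⟨{Letter.a, Letter.t, Letter.u}, by intro x; cases x <;> simp⟩

open Letter

/-- The word `a t^n a u^n a t^n a u^n`. -/
def wrd (n : ℕ) : List Letter :=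
  a :: (List.replicate n t ++ (a :: (List.replicate n u ++
    (a :: (List.replicate n t ++ (a :: List.replicate n u))))))

/-- The relators `t u`, `a a` and `a t^n a u^n a t^n a u^n`. -/
def lampLang : Language Letter := {w | w = [t, u] ∨ w = [a, a] ∨ ∃ n, w = wrd n}

/-- Nonterminals. -/
inductive NTs | S | W | X | Y
  deriving DecidableEq

/-- Flags: `f` and the bottom marker `e`. -/
inductive Flg | f | e
  deriving DecidableEq

open NTs Flg

/-- The indexed grammar. -/
def lampGrammar : IndexedGrammar Letter where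
  NT := NTs
  Flag := Flg
  initial := S
  pushRules := [(S, [Sum.inr (W, [e])]), (S, [Sum.inl t, Sum.inl u]), (S, [Sum.inl a, Sum.inl a]),
    (W, [Sum.inr (W, [f])]),
    (W, [Sum.inl a, Sum.inr (X, []), Sum.inl a, Sum.inr (Y, []),
         Sum.inl a, Sum.inr (X, []), Sum.inl a, Sum.inr (Y, [])])]
  popRules := [(X, f, [Sum.inl t, Sum.inr X]), (Y, f, [Sum.inl u, Sum.inr Y]),
    (X, e, []), (Y, e, [])]

theorem mem_push (A : NTs) (α : List (Letter ⊕ (NTs × List Flg))) :
    (A, α) ∈ lampGrammar.pushRules ↔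
      (A = S ∧ α = [Sum.inr (W, [e])]) ∨ (A = S ∧ α = [Sum.inl t, Sum.inl u]) ∨
      (A = S ∧ α = [Sum.inl a, Sum.inl a]) ∨ (A = W ∧ α = [Sum.inr (W, [f])]) ∨
      (A = W ∧ α = [Sum.inl a, Sum.inr (X, []), Sum.inl a, Sum.inr (Y, []),
         Sum.inl a, Sum.inr (X, []), Sum.inl a, Sum.inr (Y, [])]) := by
  change (A, α) ∈ ([(S, [Sum.inr (W, [e])]), (S, [Sum.inl t, Sum.inl u]),
    (S, [Sum.inl a, Sum.inl a]), (W, [Sum.inr (W, [f])]),
    (W, [Sum.inl a, Sum.inr (X, []), Sum.inl a, Sum.inr (Y, []),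
         Sum.inl a, Sum.inr (X, []), Sum.inl a, Sum.inr (Y, [])])] :
      List (NTs × List (Letter ⊕ (NTs × List Flg)))) ↔ _
  simp only [List.mem_cons, List.not_mem_nil, or_false, Prod.mk.injEq]

theorem mem_pop (A : NTs) (fl : Flg) (α : List (Letter ⊕ NTs)) :
    (A, fl, α) ∈ lampGrammar.popRules ↔
      (A = X ∧ fl = f ∧ α = [Sum.inl t, Sum.inr X]) ∨
      (A = Y ∧ fl = f ∧ α = [Sum.inl u, Sum.inr Y]) ∨
      (A = X ∧ fl = e ∧ α = []) ∨ (A = Y ∧ fl = e ∧ α = []) := by
  change (A, fl, α) ∈ ([(X, f, [Sum.inl t, Sum.inr X]), (Y, f, [Sum.inl u, Sum.inr Y]),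
    (X, e, []), (Y, e, [])] : List (NTs × Flg × List (Letter ⊕ NTs))) ↔ _
  simp only [List.mem_cons, List.not_mem_nil, or_false, Prod.mk.injEq]

/-- The number of flags `f` above the first bottom marker. -/
def cnt : List Flg → Option ℕ
  | [] => none
  | (e :: _) => some 0
  | (f :: σ) => (cnt σ).map (· + 1)

/-- The language intended for each nonterminal with its stack. -/
def sem : NTs → List Flg → Set (List Letter)
  | S, _ => lampLang
  | W, σ => {w | ∃ m, cnt σ = some m ∧ ∃ n, m ≤ n ∧ w = wrd n}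
  | X, σ => {w | ∃ n, cnt σ = some n ∧ w = List.replicate n t}
  | Y, σ => {w | ∃ n, cnt σ = some n ∧ w = List.replicate n u}

/-- The language intended for a sentential form. -/
def semF : List (Letter ⊕ (NTs × List Flg)) → Set (List Letter)
  | [] => {[]}
  | (Sum.inl x :: l) => {w | ∃ v ∈ semF l, w = x :: v}
  | (Sum.inr p :: l) => {w | ∃ v1 ∈ sem p.1 p.2, ∃ v2 ∈ semF l, w = v1 ++ v2}

theorem semF_append (l m : List (Letter ⊕ (NTs × List Flg))) (w : List Letter) :
    w ∈ semF (l ++ m) ↔ ∃ v1 ∈ semF l, ∃ v2 ∈ semF m, w = v1 ++ v2 := by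
  induction l generalizing w with
  | nil => simp [semF]
  | cons s l ih =>
    rcases s with x | p
    · constructor
      · rintro ⟨v, hv, rfl⟩
        obtain ⟨v1, h1, v2, h2, rfl⟩ := (ih v).1 hv
        exact ⟨x :: v1, ⟨v1, h1, rfl⟩, v2, h2, rfl⟩
      · rintro ⟨v1, ⟨v, hv, rfl⟩, v2, h2, rfl⟩
        exact ⟨v ++ v2, (ih _).2 ⟨v, hv, v2, h2, rfl⟩, rfl⟩
    · constructor
      · rintro ⟨v1, h1, v2, h2, rfl⟩
        obtain ⟨v3, h3, v4, h4, rfl⟩ := (ih v2).1 h2
        exact ⟨v1 ++ v3, ⟨v1, h1, v3, h3, rfl⟩, v4, h4, by simp⟩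
      · rintro ⟨v1, ⟨v3, h3, v4, h4, rfl⟩, v2, h2, rfl⟩
        exact ⟨v3, h3, v4 ++ v2, (ih _).2 ⟨v4, h4, v2, h2, rfl⟩, by simp⟩

theorem semF_terminal (w : List Letter) : semF (w.map Sum.inl) = {w} := by
  induction w with
  | nil => rfl
  | cons x w ih =>
    ext v
    simp only [List.map_cons, semF, Set.mem_ofPred_eq, ih, Set.mem_singleton_iff]
    constructor
    · rintro ⟨v', rfl, rfl⟩; rfl
    · rintro rfl; exact ⟨w, rfl, rfl⟩

theorem push_sound (A : NTs) (σ : List Flg) (α : List (Letter ⊕ (NTs × List Flg)))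
    (h : (A, α) ∈ lampGrammar.pushRules) (w : List Letter)
    (hw : w ∈ semF (lampGrammar.pushOut σ α)) : w ∈ sem A σ := by
  rw [mem_push] at h
  rcases h with ⟨rfl, rfl⟩ | ⟨rfl, rfl⟩ | ⟨rfl, rfl⟩ | ⟨rfl, rfl⟩ | ⟨rfl, rfl⟩
  · obtain ⟨v1, ⟨m, hm, n, hmn, rfl⟩, v2, hv2, rfl⟩ := hw
    have : v2 = [] := hv2
    subst this
    right; right
    exact ⟨n, by simp⟩
  · left
    obtain ⟨v, ⟨v', hv', rfl⟩, rfl⟩ := hw
    have : v' = [] := hv'
    subst this
    rfl
  · right; left
    obtain ⟨v, ⟨v', hv', rfl⟩, rfl⟩ := hw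
    have : v' = [] := hv'
    subst this
    rfl
  · obtain ⟨v1, ⟨m, hm, n, hmn, rfl⟩, v2, hv2, rfl⟩ := hw
    have : v2 = [] := hv2
    subst this
    have hm' : (cnt σ).map (· + 1) = some m := hm
    rw [Option.map_eq_some_iff] at hm'
    obtain ⟨k, hk, rfl⟩ := hm'
    exact ⟨k, hk, n, by omega, by simp⟩
  · obtain ⟨v1, ⟨x1, ⟨n1, h1, rfl⟩, v2, ⟨v3, ⟨x2, ⟨n2, h2, rfl⟩, v4, ⟨v5, ⟨x3, ⟨n3, h3, rfl⟩, v6,
      ⟨v7, ⟨x4, ⟨n4, h4, rfl⟩, v8, h8, rfl⟩, rfl⟩, rfl⟩, rfl⟩, rfl⟩, rfl⟩, rfl⟩, rfl⟩ := hw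
    have : v8 = [] := h8
    subst this
    change cnt σ = some n1 at h1
    change cnt σ = some n2 at h2
    change cnt σ = some n3 at h3
    change cnt σ = some n4 at h4
    rw [h1] at h2 h3 h4
    obtain rfl := Option.some.inj h2
    obtain rfl := Option.some.inj h3
    obtain rfl := Option.some.inj h4
    exact ⟨n1, h1, n1, le_rfl, by simp [wrd]⟩

theorem pop_sound (A : NTs) (fl : Flg) (σ : List Flg) (α : List (Letter ⊕ NTs))
    (h : (A, fl, α) ∈ lampGrammar.popRules) (w : List Letter)
    (hw : w ∈ semF (lampGrammar.popOut σ α)) : w ∈ sem A (fl :: σ) := by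
  rw [mem_pop] at h
  rcases h with ⟨rfl, rfl, rfl⟩ | ⟨rfl, rfl, rfl⟩ | ⟨rfl, rfl, rfl⟩ | ⟨rfl, rfl, rfl⟩
  · obtain ⟨v, ⟨v1, ⟨n, hn, rfl⟩, v2, hv2, rfl⟩, rfl⟩ := hw
    have : v2 = [] := hv2
    subst this
    change cnt σ = some n at hn
    exact ⟨n + 1, by simp [cnt, hn], by simp [List.replicate_succ]⟩
  · obtain ⟨v, ⟨v1, ⟨n, hn, rfl⟩, v2, hv2, rfl⟩, rfl⟩ := hw
    have : v2 = [] := hv2
    subst this
    change cnt σ = some n at hn
    exact ⟨n + 1, by simp [cnt, hn], by simp [List.replicate_succ]⟩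
  · have : w = [] := hw
    subst this
    exact ⟨0, rfl, rfl⟩
  · have : w = [] := hw
    subst this
    exact ⟨0, rfl, rfl⟩

theorem step_sound {l m : lampGrammar.Form} (h : lampGrammar.Step l m) (w : List Letter)
    (hw : w ∈ semF m) : w ∈ semF l := by
  cases h with
  | push u v A σ α h =>
    obtain ⟨v1, h1, v2, h2, rfl⟩ := (semF_append _ _ _).1 hw
    obtain ⟨v3, h3, v4, h4, rfl⟩ := (semF_append _ _ _).1 h2
    exact (semF_append _ _ _).2 ⟨v1, h1, v3 ++ v4, ⟨v3, push_sound A σ α h v3 h3, v4, h4, rfl⟩, rfl⟩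
  | pop u v A fl σ α h =>
    obtain ⟨v1, h1, v2, h2, rfl⟩ := (semF_append _ _ _).1 hw
    obtain ⟨v3, h3, v4, h4, rfl⟩ := (semF_append _ _ _).1 h2
    exact (semF_append _ _ _).2 ⟨v1, h1, v3 ++ v4,
      ⟨v3, pop_sound A fl σ α h v3 h3, v4, h4, rfl⟩, rfl⟩

theorem lamp_sound (w : List Letter) (hw : w ∈ lampGrammar.language) : w ∈ lampLang := by
  have h : Relation.ReflTransGen lampGrammar.Step [Sum.inr (S, [])] (w.map Sum.inl) := hw
  have key : ∀ l : lampGrammar.Form, Relation.ReflTransGen lampGrammar.Step l (w.map Sum.inl) →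
      w ∈ semF l := by
    intro l hl
    induction hl using Relation.ReflTransGen.head_induction_on with
    | refl =>
      have := semF_terminal w
      change w ∈ semF (w.map Sum.inl)
      rw [this]; rfl
    | head hs _ ih => exact step_sound hs w ih
  obtain ⟨v1, h1, v2, h2, rfl⟩ := key _ h
  have : v2 = [] := h2
  subst this
  rw [List.append_nil]
  exact h1

/-- Derivations inside a context. -/
theorem der_ctx {g : IndexedGrammar Letter} {l m : g.Form} (p q : g.Form)
    (h : Relation.ReflTransGen g.Step l m) :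
    Relation.ReflTransGen g.Step (p ++ (l ++ q)) (p ++ (m ++ q)) := by
  induction h with
  | refl => exact Relation.ReflTransGen.refl
  | tail _ hs ih =>
    refine ih.tail ?_
    cases hs with
    | push u v A σ α h =>
      have := IndexedGrammar.Step.push (g := g) (p ++ u) (v ++ q) A σ α h
      simpa using this
    | pop u v A f σ α h =>
      have := IndexedGrammar.Step.pop (g := g) (p ++ u) (v ++ q) A f σ α h
      simpa using this

theorem der_X (n : ℕ) : Relation.ReflTransGen lampGrammar.Step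
    [Sum.inr (X, List.replicate n f ++ [e])] ((List.replicate n t).map Sum.inl) := by
  induction n with
  | zero =>
    refine Relation.ReflTransGen.single ?_
    exact IndexedGrammar.Step.pop (g := lampGrammar) [] [] X e [] []
      ((mem_pop _ _ _).2 (Or.inr (Or.inr (Or.inl ⟨rfl, rfl, rfl⟩))))
  | succ n ih =>
    have h1 : lampGrammar.Step [Sum.inr (X, List.replicate (n + 1) f ++ [e])]
        [Sum.inl t, Sum.inr (X, List.replicate n f ++ [e])] :=
      IndexedGrammar.Step.pop (g := lampGrammar) [] [] X f (List.replicate n f ++ [e])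
        [Sum.inl t, Sum.inr X] ((mem_pop _ _ _).2 (Or.inl ⟨rfl, rfl, rfl⟩))
    have h2 := der_ctx (g := lampGrammar) [Sum.inl t] [] ih
    refine Relation.ReflTransGen.head h1 ?_
    rw [List.append_nil, List.append_nil] at h2
    exact h2

theorem der_Y (n : ℕ) : Relation.ReflTransGen lampGrammar.Step
    [Sum.inr (Y, List.replicate n f ++ [e])] ((List.replicate n u).map Sum.inl) := by
  induction n with
  | zero =>
    refine Relation.ReflTransGen.single ?_
    exact IndexedGrammar.Step.pop (g := lampGrammar) [] [] Y e [] []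
      ((mem_pop _ _ _).2 (Or.inr (Or.inr (Or.inr ⟨rfl, rfl, rfl⟩))))
  | succ n ih =>
    have h1 : lampGrammar.Step [Sum.inr (Y, List.replicate (n + 1) f ++ [e])]
        [Sum.inl u, Sum.inr (Y, List.replicate n f ++ [e])] :=
      IndexedGrammar.Step.pop (g := lampGrammar) [] [] Y f (List.replicate n f ++ [e])
        [Sum.inl u, Sum.inr Y] ((mem_pop _ _ _).2 (Or.inr (Or.inl ⟨rfl, rfl, rfl⟩)))
    have h2 := der_ctx (g := lampGrammar) [Sum.inl u] [] ih
    refine Relation.ReflTransGen.head h1 ?_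
    rw [List.append_nil, List.append_nil] at h2
    exact h2

theorem der_W (n : ℕ) : Relation.ReflTransGen lampGrammar.Step
    [Sum.inr (W, [e])] [Sum.inr (W, List.replicate n f ++ [e])] := by
  induction n with
  | zero => exact Relation.ReflTransGen.refl
  | succ n ih =>
    refine ih.tail ?_
    exact IndexedGrammar.Step.push (g := lampGrammar) [] [] W (List.replicate n f ++ [e])
      [Sum.inr (W, [f])] ((mem_push _ _).2 (Or.inr (Or.inr (Or.inr (Or.inl ⟨rfl, rfl⟩)))))

theorem lamp_complete (w : List Letter) (hw : w ∈ lampLang) : w ∈ lampGrammar.language := by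
  change Relation.ReflTransGen lampGrammar.Step [Sum.inr (S, [])] (w.map Sum.inl)
  rcases hw with rfl | rfl | ⟨n, rfl⟩
  · refine Relation.ReflTransGen.single ?_
    exact IndexedGrammar.Step.push (g := lampGrammar) [] [] S []
      [Sum.inl t, Sum.inl u] ((mem_push _ _).2 (Or.inr (Or.inl ⟨rfl, rfl⟩)))
  · refine Relation.ReflTransGen.single ?_
    exact IndexedGrammar.Step.push (g := lampGrammar) [] [] S []
      [Sum.inl a, Sum.inl a] ((mem_push _ _).2 (Or.inr (Or.inr (Or.inl ⟨rfl, rfl⟩))))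
  · have h1 : Relation.ReflTransGen lampGrammar.Step [Sum.inr (S, [])] [Sum.inr (W, [e])] := by
      refine Relation.ReflTransGen.single ?_
      exact IndexedGrammar.Step.push (g := lampGrammar) [] [] S []
        [Sum.inr (W, [e])] ((mem_push _ _).2 (Or.inl ⟨rfl, rfl⟩))
    refine h1.trans ((der_W n).trans ?_)
    have h2 : lampGrammar.Step [Sum.inr (W, List.replicate n f ++ [e])]
        [Sum.inl a, Sum.inr (X, List.replicate n f ++ [e]), Sum.inl a,
         Sum.inr (Y, List.replicate n f ++ [e]),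
         Sum.inl a, Sum.inr (X, List.replicate n f ++ [e]), Sum.inl a,
         Sum.inr (Y, List.replicate n f ++ [e])] :=
      IndexedGrammar.Step.push (g := lampGrammar) [] [] W (List.replicate n f ++ [e])
        [Sum.inl a, Sum.inr (X, []), Sum.inl a, Sum.inr (Y, []),
         Sum.inl a, Sum.inr (X, []), Sum.inl a, Sum.inr (Y, [])]
        ((mem_push _ _).2 (Or.inr (Or.inr (Or.inr (Or.inr ⟨rfl, rfl⟩)))))
    refine Relation.ReflTransGen.head h2 ?_
    let g := lampGrammar
    let tn : g.Form := (List.replicate n t).map Sum.inl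
    let un : g.Form := (List.replicate n u).map Sum.inl
    let xn : g.Form := [Sum.inr (X, List.replicate n f ++ [e])]
    let yn : g.Form := [Sum.inr (Y, List.replicate n f ++ [e])]
    let an : g.Form := [Sum.inl a]
    have x1 : Relation.ReflTransGen g.Step (an ++ (xn ++ (an ++ yn ++ an ++ xn ++ an ++ yn)))
        (an ++ (tn ++ (an ++ yn ++ an ++ xn ++ an ++ yn))) := der_ctx (g := g) _ _ (der_X n)
    have x2 : Relation.ReflTransGen g.Step ((an ++ tn ++ an) ++ (yn ++ (an ++ xn ++ an ++ yn)))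
        ((an ++ tn ++ an) ++ (un ++ (an ++ xn ++ an ++ yn))) := der_ctx (g := g) _ _ (der_Y n)
    have x3 : Relation.ReflTransGen g.Step ((an ++ tn ++ an ++ un ++ an) ++ (xn ++ (an ++ yn)))
        ((an ++ tn ++ an ++ un ++ an) ++ (tn ++ (an ++ yn))) := der_ctx (g := g) _ _ (der_X n)
    have x4 : Relation.ReflTransGen g.Step ((an ++ tn ++ an ++ un ++ an ++ tn ++ an) ++ (yn ++ []))
        ((an ++ tn ++ an ++ un ++ an ++ tn ++ an) ++ (un ++ [])) := der_ctx (g := g) _ _ (der_Y n)
    simp only [List.append_assoc, List.append_nil] at x1 x2 x3 x4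
    have x := ((x1.trans x2).trans x3).trans x4
    have e1 : (wrd n).map Sum.inl =
        an ++ (tn ++ (an ++ (un ++ (an ++ (tn ++ (an ++ un)))))) := by
      simp only [wrd, List.map_cons, List.map_append]
      rfl
    change Relation.ReflTransGen g.Step _ ((wrd n).map Sum.inl)
    rw [e1]
    exact x

theorem lampLang_indexed : IsIndexed lampLang :=
  ⟨lampGrammar, Set.Subset.antisymm lamp_sound lamp_complete⟩

/-- The permutation of the integers assigned to a letter. -/
def permOf (N : ℕ) : Letter → Equiv.Perm ℤ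
  | a => Equiv.swap 0 (N : ℤ)
  | t => Equiv.addRight 1
  | u => (Equiv.addRight 1)⁻¹

/-- The homomorphism from the free group. -/
def toPerm (N : ℕ) : FreeGroup Letter →* Equiv.Perm ℤ := FreeGroup.lift (permOf N)

theorem toPerm_wordVal (N : ℕ) (w : List Letter) :
    toPerm N (wordVal w) = (w.map (permOf N)).prod := by
  induction w with
  | nil => simp [wordVal_nil]
  | cons x w ih => rw [wordVal_cons, map_mul, ih, toPerm, FreeGroup.lift_apply_of]; simp

theorem toPerm_wrd (N n : ℕ) : toPerm N (wordVal (wrd n)) =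
    permOf N a * (permOf N t ^ n * (permOf N a * ((permOf N t)⁻¹ ^ n *
      (permOf N a * (permOf N t ^ n * (permOf N a * (permOf N t)⁻¹ ^ n)))))) := by
  rw [toPerm_wordVal]
  simp only [wrd, List.map_cons, List.map_append, List.map_replicate, List.prod_cons,
    List.prod_append, List.prod_replicate]
  rfl

theorem addRight_pow (n : ℕ) (x : ℤ) : ((Equiv.addRight (1 : ℤ)) ^ n : Equiv.Perm ℤ) x = x + n := by
  induction n generalizing x with
  | zero => simp
  | succ n ih =>
    rw [pow_succ, Equiv.Perm.mul_apply, ih]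
    simp
    ring

/-- The conjugate of the swap by the shift. -/
theorem conj_swap (N n : ℕ) :
    (permOf N t) ^ n * (permOf N a * (permOf N t)⁻¹ ^ n) = Equiv.swap (n : ℤ) (N + n) := by
  have h := Equiv.swap_apply_apply ((permOf N t) ^ n) (0 : ℤ) (N : ℤ)
  have e0 : ((permOf N t) ^ n) 0 = (n : ℤ) := by
    rw [show permOf N t = Equiv.addRight (1 : ℤ) from rfl, addRight_pow, zero_add]
  have e1 : ((permOf N t) ^ n) (N : ℤ) = (N : ℤ) + n := by
    rw [show permOf N t = Equiv.addRight (1 : ℤ) from rfl, addRight_pow]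
  rw [e0, e1] at h
  rw [h, inv_pow, mul_assoc]
  rfl

theorem toPerm_wrd' (N n : ℕ) : toPerm N (wordVal (wrd n)) =
    Equiv.swap 0 (N : ℤ) * (Equiv.swap (n : ℤ) (N + n)) *
      (Equiv.swap 0 (N : ℤ) * (Equiv.swap (n : ℤ) (N + n))) := by
  rw [toPerm_wrd]
  have h := conj_swap N n
  have ha : permOf N a = Equiv.swap 0 (N : ℤ) := rfl
  rw [← h, ← ha]
  group

theorem toPerm_wrd_eq_one (N n : ℕ) (h : n < N) : toPerm N (wordVal (wrd n)) = 1 := by
  rw [toPerm_wrd']
  rcases Nat.eq_zero_or_pos n with rfl | hn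
  · simp
  · have hd : Equiv.Perm.Disjoint (Equiv.swap (0 : ℤ) (N : ℤ)) (Equiv.swap (n : ℤ) (N + n)) := by
      intro x
      by_cases hx : x = 0 ∨ x = N
      · right
        apply Equiv.swap_apply_of_ne_of_ne
        · rcases hx with rfl | rfl <;> omega
        · rcases hx with rfl | rfl <;> omega
      · left
        push Not at hx
        exact Equiv.swap_apply_of_ne_of_ne hx.1 hx.2
    have hc := hd.commute.eq
    calc Equiv.swap 0 (N : ℤ) * (Equiv.swap (n : ℤ) (N + n)) *
          (Equiv.swap 0 (N : ℤ) * (Equiv.swap (n : ℤ) (N + n)))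
        = Equiv.swap 0 (N : ℤ) * ((Equiv.swap (n : ℤ) (N + n)) *
          Equiv.swap 0 (N : ℤ)) * (Equiv.swap (n : ℤ) (N + n)) := by group
      _ = Equiv.swap 0 (N : ℤ) * (Equiv.swap 0 (N : ℤ) * (Equiv.swap (n : ℤ) (N + n)))
          * (Equiv.swap (n : ℤ) (N + n)) := by rw [hc]
      _ = (Equiv.swap 0 (N : ℤ) * Equiv.swap 0 (N : ℤ)) * ((Equiv.swap (n : ℤ) (N + n))
          * (Equiv.swap (n : ℤ) (N + n))) := by group
      _ = 1 := by rw [Equiv.swap_mul_self, Equiv.swap_mul_self, one_mul]

theorem toPerm_wrd_ne_one (N : ℕ) (h : 0 < N) : toPerm N (wordVal (wrd N)) ≠ 1 := by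
  rw [toPerm_wrd']
  intro hc
  have h1 := congrArg (fun p : Equiv.Perm ℤ => p 0) hc
  simp only [Equiv.Perm.mul_apply, Equiv.Perm.one_apply] at h1
  have e1 : Equiv.swap (N : ℤ) (N + N) 0 = 0 :=
    Equiv.swap_apply_of_ne_of_ne (by omega) (by omega)
  rw [e1, Equiv.swap_apply_left, Equiv.swap_apply_left,
    Equiv.swap_apply_of_ne_of_ne (by omega) (by omega)] at h1
  omega

/-- Elements of the free group which die in all but finitely many of the quotients. -/
def eventually : Subgroup (FreeGroup Letter) where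
  carrier := {x | ∀ᶠ N in Filter.atTop, toPerm N x = 1}
  mul_mem' := by
    intro x y hx hy
    filter_upwards [hx, hy] with N h1 h2
    rw [map_mul, h1, h2, one_mul]
  one_mem' := by
    apply Filter.Eventually.of_forall
    intro N
    exact map_one _
  inv_mem' := by
    intro x hx
    filter_upwards [hx] with N h1
    rw [map_inv, h1, inv_one]

instance : eventually.Normal := by
  constructor
  intro x hx y
  change ∀ᶠ N in Filter.atTop, toPerm N (y * x * y⁻¹) = 1
  have hx' : ∀ᶠ N in Filter.atTop, toPerm N x = 1 := hx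
  filter_upwards [hx'] with N h1
  rw [map_mul, map_mul, h1, map_inv, mul_one, mul_inv_cancel]

theorem nc_le_eventually : Subgroup.normalClosure (wordRels lampLang) ≤ eventually := by
  apply Subgroup.normalClosure_le_normal
  rintro x ⟨w, hw, rfl⟩
  change ∀ᶠ N in Filter.atTop, toPerm N (wordVal w) = 1
  rcases hw with rfl | rfl | ⟨n, rfl⟩
  · apply Filter.Eventually.of_forall
    intro N
    rw [toPerm_wordVal]
    change Equiv.addRight (1 : ℤ) * ((Equiv.addRight (1 : ℤ))⁻¹ * 1) = 1
    rw [mul_one, mul_inv_cancel]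
  · apply Filter.Eventually.of_forall
    intro N
    rw [toPerm_wordVal]
    simp [permOf]
  · filter_upwards [Filter.eventually_gt_atTop n] with N hN
    exact toPerm_wrd_eq_one N n hN

theorem lamp_not_fp : ¬ Group.IsFinitelyPresented (LangGroup lampLang) := by
  intro h
  obtain ⟨n, s, hs, ⟨φ⟩⟩ := Group.IsFinitelyPresented.exists_mulEquiv_presentedGroup
    (G := LangGroup lampLang)
  -- lifts of the two isomorphisms to free groups
  have hmk := PresentedGroup.mk_surjective (wordRels lampLang)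
  have hmk' := PresentedGroup.mk_surjective s
  choose v hv using fun i : Fin n => hmk (φ.symm (PresentedGroup.mk s (FreeGroup.of i)))
  choose p hp using fun x : Letter => hmk' (φ (PresentedGroup.mk (wordRels lampLang) (FreeGroup.of x)))
  have hv' : ∀ x : FreeGroup (Fin n), PresentedGroup.mk (wordRels lampLang) (FreeGroup.lift v x) =
      φ.symm (PresentedGroup.mk s x) := by
    intro x
    have : (PresentedGroup.mk (wordRels lampLang)).comp (FreeGroup.lift v) =
        (φ.symm.toMonoidHom).comp (PresentedGroup.mk s) := by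
      apply FreeGroup.ext_hom
      intro i
      simp [hv]
    exact DFunLike.congr_fun this x
  -- all but finitely many quotients kill the following elements
  have k1 : ∀ r ∈ s, ∀ᶠ N in Filter.atTop, toPerm N (FreeGroup.lift v r) = 1 := by
    intro r hr
    apply nc_le_eventually
    have h1 : PresentedGroup.mk (wordRels lampLang) (FreeGroup.lift v r) = 1 := by
      rw [hv']
      have : PresentedGroup.mk s r = 1 := PresentedGroup.one_of_mem hr
      rw [this, map_one]
    exact PresentedGroup.mk_eq_one_iff.1 h1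
  have k2 : ∀ x : Letter, ∀ᶠ N in Filter.atTop,
      toPerm N ((FreeGroup.of x)⁻¹ * FreeGroup.lift v (p x)) = 1 := by
    intro x
    apply nc_le_eventually
    have h1 : PresentedGroup.mk (wordRels lampLang)
        ((FreeGroup.of x)⁻¹ * FreeGroup.lift v (p x)) = 1 := by
      rw [map_mul, hv', hp, map_inv]
      simp
    exact PresentedGroup.mk_eq_one_iff.1 h1
  have k1' : ∀ᶠ N in Filter.atTop, ∀ r ∈ s, toPerm N (FreeGroup.lift v r) = 1 :=
    (Filter.eventually_all_finite hs).2 k1
  have k2' : ∀ᶠ N in Filter.atTop, ∀ x : Letter,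
      toPerm N ((FreeGroup.of x)⁻¹ * FreeGroup.lift v (p x)) = 1 :=
    Filter.eventually_all.2 k2
  obtain ⟨N, h1, h2, hN⟩ := (k1'.and (k2'.and (Filter.eventually_gt_atTop 0))).exists
  -- the induced map
  let ψ : FreeGroup (Fin n) →* Equiv.Perm ℤ := (toPerm N).comp (FreeGroup.lift v)
  have hψ : Subgroup.normalClosure s ≤ ψ.ker := by
    apply Subgroup.normalClosure_le_normal
    intro r hr
    exact h1 r hr
  have hcomp : ψ.comp (FreeGroup.lift p) = toPerm N := by
    apply FreeGroup.ext_hom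
    intro x
    have := h2 x
    rw [map_mul, map_inv, inv_mul_eq_one] at this
    simp only [MonoidHom.comp_apply, FreeGroup.lift_apply_of, ψ]
    exact this.symm
  have hpp : ∀ x : FreeGroup Letter, PresentedGroup.mk s (FreeGroup.lift p x) =
      φ (PresentedGroup.mk (wordRels lampLang) x) := by
    intro x
    have : (PresentedGroup.mk s).comp (FreeGroup.lift p) =
        (φ.toMonoidHom).comp (PresentedGroup.mk (wordRels lampLang)) := by
      apply FreeGroup.ext_hom
      intro i
      simp [hp]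
    exact DFunLike.congr_fun this x
  have hz : PresentedGroup.mk s (FreeGroup.lift p (wordVal (wrd N))) = 1 := by
    rw [hpp]
    have : PresentedGroup.mk (wordRels lampLang) (wordVal (wrd N)) = 1 :=
      PresentedGroup.one_of_mem ⟨wrd N, Or.inr (Or.inr ⟨N, rfl⟩), rfl⟩
    rw [this, map_one]
  have hz' := hψ (PresentedGroup.mk_eq_one_iff.1 hz)
  have hz'' : (ψ.comp (FreeGroup.lift p)) (wordVal (wrd N)) = 1 := hz'
  rw [hcomp] at hz''
  exact toPerm_wrd_ne_one N hN hz''

end Pool.Agent.R938.NS
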